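import Pool.Agent.P.MP_bf5038_mp.HGeo

set_option autoImplicit false

namespace Pool.Agent.Results.MP_bf5038_mp.Periodic

open Pool.Agent.P.MP_bf5038_mp Pool.Agent.P.MP_bf5038_mp.H

theorem result :
    ∃ H : ℝ → ℝ → ℝ → ℝ,
      ContDiff ℝ ((⊤ : ℕ∞) : WithTop ℕ∞) (fun p : ℝ × ℝ × ℝ => H p.1 p.2.1 p.2.2) ∧
      (∀ u x y, H (u + 2 * Real.pi) x y = H u x y) ∧
      (∀ i j p, ricci (ppw H) i j p = 0) ∧ Complete (ppw H) ∧
      ∀ u, ¬ ∃ P : MvPolynomial (Fin 2) ℝ, ∀ x y, H u x y = MvPolynomial.eval ![x, y] P :=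
  ⟨Hp, Hp_contDiff, periodic_Hp, ricci_ppw Hp Hp_harmonic, complete_Hp, not_poly⟩

end Pool.Agent.Results.MP_bf5038_mp.Periodic
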